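import Pool.Agent.H75.L.W662.CB.Stmts

/-! Project CB: the unitaries of the corner span the corner. -/

set_option autoImplicit false
set_option linter.unusedSectionVars false

open MeasureTheory Filter Topology Complex
open scoped InnerProductSpace ENNReal

namespace Pool.Agent.W672.CB.D

open Pool.Agent.W662.CB

variable {K : Type} [NormedAddCommGroup K] [InnerProductSpace ℂ K] [CompleteSpace K]

theorem exp_mul_neg (x : K →L[ℂ] K) : NormedSpace.exp x * NormedSpace.exp (-x) = 1 := by
  let _ : NormedAlgebra ℚ (K →L[ℂ] K) := NormedAlgebra.restrictScalars ℚ ℝ (K →L[ℂ] K)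
  rw [← NormedSpace.exp_add_of_commute (Commute.neg_right (Commute.refl x)), add_neg_cancel,
    NormedSpace.exp_zero]

theorem sa_case (A : VonNeumannAlgebra K) (p : K →L[ℂ] K) (hpA : p ∈ A) (hpp : p * p = p)
    (hps : star p = p) (Z : K →L[ℂ] K) (hZ : p * Z * p = Z)
    (hu : ∀ u : K →L[ℂ] K, u ∈ A → star u * u = p → u * star u = p → u * Z = Z * u)
    (S : K →L[ℂ] K) (hSA : S ∈ A) (hS : p * S * p = S) (hSs : star S = S) : S * Z = Z * S := by
  have hpS : p * S = S := by
    rw [← hS]
    simp only [← mul_assoc, hpp]
  have hSp : S * p = S := by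
    rw [← hS]
    simp only [mul_assoc, hpp]
  have hpZ : p * Z = Z := by
    rw [← hZ]
    simp only [← mul_assoc, hpp]
  have hZp : Z * p = Z := by
    rw [← hZ]
    simp only [mul_assoc, hpp]
  set a : K →L[ℂ] K := (I : ℂ) • S with ha
  have hstar : ∀ t : ℝ, star (t • a) = -(t • a) := by
    intro t
    rw [ha, star_smul, star_smul, hSs]
    simp
  have hcomm : ∀ t : ℝ, NormedSpace.exp (t • a) * Z = Z * NormedSpace.exp (t • a) := by
    intro t
    set e := NormedSpace.exp (t • a) with he
    have hse : star e = NormedSpace.exp (-(t • a)) := by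
      rw [he, NormedSpace.star_exp, hstar]
    have hee : e * star e = 1 := by
      rw [hse, he, exp_mul_neg]
    have hee' : star e * e = 1 := by
      have h1 := exp_mul_neg (-(t • a))
      rw [neg_neg] at h1
      rw [hse, he, h1]
    have hpe : p * e = e * p := by
      have h1 : Commute p (t • a) := by
        apply Commute.smul_right
        rw [ha]
        apply Commute.smul_right
        show p * S = S * p
        rw [hpS, hSp]
      exact h1.exp_right
    have heA : e ∈ A := by
      rw [← A.commutant_commutant, VonNeumannAlgebra.mem_commutant_iff]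
      intro g hg
      rw [VonNeumannAlgebra.mem_commutant_iff] at hg
      have h1 : Commute g (t • a) := by
        apply Commute.smul_right
        rw [ha]
        apply Commute.smul_right
        exact (hg S hSA).symm
      exact h1.exp_right
    have h1 := hu (e * p) (mul_mem heA hpA) (by
      rw [star_mul, hps]
      calc p * star e * (e * p) = p * (star e * e) * p := by simp only [mul_assoc]
        _ = p := by rw [hee', mul_one, hpp]) (by
      rw [star_mul, hps]
      calc e * p * (p * star e) = e * (p * p) * star e := by simp only [mul_assoc]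
        _ = p * (e * star e) := by rw [hpp, ← hpe, mul_assoc]
        _ = p := by rw [hee, mul_one])
    calc e * Z = e * p * Z := by rw [mul_assoc, hpZ]
      _ = Z * (e * p) := h1
      _ = Z * p * e := by rw [← hpe, mul_assoc]
      _ = Z * e := by rw [hZp]
  have h1 : HasDerivAt (fun t : ℝ => NormedSpace.exp (t • a) * Z)
      (NormedSpace.exp ((0 : ℝ) • a) * a * Z) 0 := (hasDerivAt_exp_smul_const a 0).mul_const Z
  have h2 : HasDerivAt (fun t : ℝ => Z * NormedSpace.exp (t • a))
      (Z * (NormedSpace.exp ((0 : ℝ) • a) * a)) 0 := (hasDerivAt_exp_smul_const a 0).const_mul Z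
  have h3 : (fun t : ℝ => NormedSpace.exp (t • a) * Z) =
      fun t : ℝ => Z * NormedSpace.exp (t • a) := funext hcomm
  rw [h3] at h1
  have h4 := h1.unique h2
  rw [zero_smul, NormedSpace.exp_zero, one_mul, ha, smul_mul_assoc, mul_smul_comm] at h4
  exact smul_right_injective _ I_ne_zero h4

theorem d3 : S_D3 := by
  intro K _ _ _ A p hpA hpp hps Z hZ hu S hSA hS
  have hSA' : star S ∈ A := star_mem hSA
  have hS' : p * star S * p = star S := by
    have h1 := congrArg star hS
    rw [star_mul, star_mul, hps, ← mul_assoc] at h1
    exact h1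
  have h1 := sa_case A p hpA hpp hps Z hZ hu (S + star S) (add_mem hSA hSA')
    (by rw [mul_add, add_mul, hS, hS']) (by rw [star_add, star_star, add_comm])
  have h2 := sa_case A p hpA hpp hps Z hZ hu ((I : ℂ) • (S - star S))
    (A.toStarSubalgebra.smul_mem (show S - star S ∈ A.toStarSubalgebra from sub_mem hSA hSA') I)
    (by rw [mul_smul_comm, smul_mul_assoc, mul_sub, sub_mul, hS, hS'])
    (by
      rw [star_smul, star_sub, star_star]
      have : star (I : ℂ) = -I := conj_I
      rw [this, neg_smul, ← smul_neg, neg_sub])
  rw [smul_mul_assoc, mul_smul_comm] at h2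
  have h3 : (S - star S) * Z = Z * (S - star S) := smul_right_injective _ I_ne_zero h2
  rw [add_mul, mul_add] at h1
  rw [sub_mul, mul_sub] at h3
  have h4 : (2 : ℂ) • (S * Z) = (2 : ℂ) • (Z * S) := by
    rw [two_smul, two_smul]
    have h5 : S * Z + star S * Z + (S * Z - star S * Z) =
      Z * S + Z * star S + (Z * S - Z * star S) := congrArg₂ (· + ·) h1 h3
    calc S * Z + S * Z = S * Z + star S * Z + (S * Z - star S * Z) := by abel
      _ = Z * S + Z * star S + (Z * S - Z * star S) := h5
      _ = Z * S + Z * S := by abel
  exact smul_right_injective _ two_ne_zero h4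

end Pool.Agent.W672.CB.D
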